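import Pool.Agent.H97.PK.Targets3

/-! # PK, module MID: one-dimensional inequality for a pair of neighbouring diagrams -/

open MeasureTheory Set Metric Real
open scoped ENNReal

namespace Pool.Agent.H12.PK

open Pool.Agent.H97.PK

private noncomputable def mm (a b : ℝ) : ℝ := min (a / b) (b / a) ^ ((1 : ℝ) / 4)

private theorem mm_nonneg {a b : ℝ} (ha : 0 < a) (hb : 0 < b) : 0 ≤ mm a b := by
  unfold mm
  positivity

private theorem rd_pos {Γ r : ℝ} (hΓ : 0 < Γ) (hr : 0 < r) : 0 < rd Γ r := by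
  unfold rd
  positivity

private theorem rd_cont (Γ : ℝ) : Continuous (rd Γ) := by
  unfold rd
  fun_prop

/-- the pointwise inequality -/
private theorem mid_pt (hKAP : T_KAP) {Γ Γ' : ℝ} {V₀ V₁ w : ℝ → ℝ≥0∞} (hΓ : 0 < Γ)
    (h1 : Γ ≤ Γ') (h2 : Γ' ≤ Γ + √Γ)
    (hw : ∀ a b : ℝ, 0 < a → a < 1 → 0 < b →
      V₀ (1 - a) ^ (b / (a + b)) * V₁ (1 + b) ^ (a / (a + b)) ≤ w (a / b))
    {a b : ℝ} (ha : 0 < a) (ha1 : a < 1) (hb : 0 < b) :
    min (ENNReal.ofReal (a * rd Γ' (1 - a)) * V₀ (1 - a))
      (ENNReal.ofReal (b * rd Γ (1 + b)) * V₁ (1 + b)) ≤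
      ENNReal.ofReal (4 * (√Γ + 1) * mm a b) * w (a / b) := by
  have hΓ' : 0 < Γ' := hΓ.trans_le h1
  have hab : 0 < a + b := by positivity
  set p := b / (a + b) with hp
  set q := a / (a + b) with hq
  have hp0 : 0 < p := by positivity
  have hq0 : 0 < q := by positivity
  have hpq : p + q = 1 := by
    rw [hp, hq]
    field_simp
    ring
  set α := a * rd Γ' (1 - a) with hα
  set β := b * rd Γ (1 + b) with hβ
  have hα0 : 0 < α := mul_pos ha (rd_pos hΓ' (by linarith))
  have hβ0 : 0 < β := mul_pos hb (rd_pos hΓ (by linarith))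
  have hK := hKAP Γ Γ' a b hΓ h1 h2 ha ha1 hb
  rw [← hα, ← hβ, ← hp, ← hq] at hK
  have hαβ : α ^ p * β ^ q ≤ 4 * (√Γ + 1) * mm a b := by
    have e1 : 0 < α ^ p := rpow_pos_of_pos hα0 _
    have e2 : 0 < β ^ q := rpow_pos_of_pos hβ0 _
    rw [rpow_neg hα0.le, rpow_neg hβ0.le, ← mul_inv] at hK
    have e3 : 0 < α ^ p * β ^ q := mul_pos e1 e2
    calc α ^ p * β ^ q = 1 * (α ^ p * β ^ q) := (one_mul _).symm
      _ ≤ (4 * (√Γ + 1) * min (a / b) (b / a) ^ ((1 : ℝ) / 4) * (α ^ p * β ^ q)⁻¹) *
          (α ^ p * β ^ q) := by gcongr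
      _ = 4 * (√Γ + 1) * mm a b := by
          unfold mm
          rw [mul_assoc (4 * (√Γ + 1) * min (a / b) (b / a) ^ ((1 : ℝ) / 4)),
            inv_mul_cancel₀ e3.ne', mul_one]
  set A := ENNReal.ofReal α * V₀ (1 - a) with hA
  set B := ENNReal.ofReal β * V₁ (1 + b) with hB
  have hmin : min A B ≤ A ^ p * B ^ q := by
    calc min A B = min A B ^ (p + q) := by rw [hpq, ENNReal.rpow_one]
      _ = min A B ^ p * min A B ^ q := ENNReal.rpow_add_of_nonneg _ _ hp0.le hq0.le
      _ ≤ A ^ p * B ^ q := by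
          gcongr
          · exact min_le_left _ _
          · exact min_le_right _ _
  calc min A B ≤ A ^ p * B ^ q := hmin
    _ = (ENNReal.ofReal α ^ p * ENNReal.ofReal β ^ q) *
          (V₀ (1 - a) ^ p * V₁ (1 + b) ^ q) := by
        rw [hA, hB, ENNReal.mul_rpow_of_nonneg _ _ hp0.le, ENNReal.mul_rpow_of_nonneg _ _ hq0.le]
        ring
    _ = ENNReal.ofReal (α ^ p * β ^ q) * (V₀ (1 - a) ^ p * V₁ (1 + b) ^ q) := by
        rw [ENNReal.ofReal_rpow_of_pos hα0, ENNReal.ofReal_rpow_of_pos hβ0,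
          ENNReal.ofReal_mul (rpow_pos_of_pos hα0 _).le]
    _ ≤ ENNReal.ofReal (4 * (√Γ + 1) * mm a b) * w (a / b) := by
        gcongr
        exact hw a b ha ha1 hb

private theorem mw_eq {a b : ℝ} : mw (a / b) = mm a b / (a / b) := by
  unfold mw mm
  rw [one_div_div]

/-- substitution `t = a / b`, `b` variable -/
private theorem sub_inv {a : ℝ} (ha : 0 < a) (F : ℝ → ℝ≥0∞) :
    ∫⁻ t in Ioi (0 : ℝ), F t = ∫⁻ b in Ioi (0 : ℝ), ENNReal.ofReal (a / b ^ 2) * F (a / b) := by
  have him : (fun b : ℝ => a / b) '' Ioi 0 = Ioi 0 := by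
    ext t
    constructor
    · rintro ⟨b, hb, rfl⟩
      exact div_pos ha hb
    · intro ht
      refine ⟨a / t, div_pos ha ht, ?_⟩
      have ht' : t ≠ 0 := (ne_of_gt ht)
      field_simp
  have h := lintegral_image_eq_lintegral_abs_deriv_mul (s := Ioi (0 : ℝ))
    (f := fun b : ℝ => a / b) (f' := fun b => -(a / b ^ 2)) measurableSet_Ioi
    (by
      intro b hb
      have hb' : b ≠ 0 := ne_of_gt hb
      have h1 : HasDerivAt (fun b : ℝ => a / b) (-(a / b ^ 2)) b := by
        have h2 := (hasDerivAt_inv hb').const_mul a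
        have e1 : (fun b : ℝ => a / b) = fun b => a * b⁻¹ := by
          funext x
          rw [div_eq_mul_inv]
        rw [e1]
        convert! h2 using 1
        field_simp
      exact h1.hasDerivWithinAt)
    (by
      intro x hx y hy hxy
      have hx' : x ≠ 0 := ne_of_gt hx
      have hy' : y ≠ 0 := ne_of_gt hy
      simp only at hxy
      field_simp at hxy
      exact hxy.symm)
    F
  rw [him] at h
  rw [h]
  refine setLIntegral_congr_fun measurableSet_Ioi ?_
  intro b hb
  have hb' : 0 < b := hb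
  change ENNReal.ofReal |-(a / b ^ 2)| * F (a / b) = _
  rw [abs_neg, abs_of_pos (by positivity)]

theorem pf_mid (hKAP : T_KAP) : T_MID := by
  intro Γ Γ' G V₀ V₁ w hΓ h1 h2 hG hV₀ hV₁ hf₀ hf₁ hw hL hR
  have hΓ' : 0 < Γ' := hΓ.trans_le h1
  set c : ℝ := 4 * (√Γ + 1) with hc
  have hc0 : 0 < c := by positivity
  set I := ∫⁻ t in Ioi (0 : ℝ), ENNReal.ofReal (mw t) * w t with hI
  let f : ℝ → ℝ≥0∞ := fun a => ENNReal.ofReal (a * rd Γ' (1 - a)) * V₀ (1 - a)
  let g : ℝ → ℝ≥0∞ := fun b => ENNReal.ofReal (b * rd Γ (1 + b)) * V₁ (1 + b)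
  have hgm : Measurable g := by
    have e1 : Continuous fun b : ℝ => b * rd Γ (1 + b) := by
      have := rd_cont Γ
      fun_prop
    exact e1.measurable.ennreal_ofReal.mul
      (hV₁.measurable.comp (measurable_const.add measurable_id))
  have hP : ∀ a b x : ℝ, 0 < a → a < 1 → 0 < b → 0 < x →
      ENNReal.ofReal (1 / (c * x)) * min (f a) (g b) ≤
        ENNReal.ofReal (mm a b / x) * w (a / b) := by
    intro a b x ha ha1 hb hx
    calc ENNReal.ofReal (1 / (c * x)) * min (f a) (g b)
        ≤ ENNReal.ofReal (1 / (c * x)) * (ENNReal.ofReal (c * mm a b) * w (a / b)) := by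
          gcongr
          exact mid_pt hKAP hΓ h1 h2 hw ha ha1 hb
      _ = ENNReal.ofReal (mm a b / x) * w (a / b) := by
          rw [← mul_assoc, ← ENNReal.ofReal_mul (by positivity)]
          congr 2
          field_simp
  -- reduction
  have hred : ∀ J : ℝ≥0∞, ENNReal.ofReal G ≤ 2 * J → ENNReal.ofReal (1 / c) * J ≤ I →
      ENNReal.ofReal G ≤ ENNReal.ofReal (8 * (√Γ + 1)) * I := by
    intro J hJ hJI
    calc ENNReal.ofReal G ≤ 2 * J := hJ
      _ = ENNReal.ofReal (2 * c) * (ENNReal.ofReal (1 / c) * J) := by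
          rw [← mul_assoc, ← ENNReal.ofReal_mul (by positivity)]
          have e1 : 2 * c * (1 / c) = 2 := by field_simp
          rw [e1]
          norm_num
      _ ≤ ENNReal.ofReal (2 * c) * I := by gcongr
      _ = ENNReal.ofReal (8 * (√Γ + 1)) * I := by
          rw [hc]
          congr 2
          ring
  rcases lt_or_ge (⨆ a : Ioo (0 : ℝ) 1, f a) (⨆ b : Ioi (0 : ℝ), g b) with hlt | hge
  · -- case B
    obtain ⟨⟨b0, hb0⟩, hb⟩ := lt_iSup_iff.1 hlt
    have hb0' : 0 < b0 := hb0
    have hfg : ∀ a, 0 < a → a < 1 → f a ≤ g b0 := by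
      intro a ha ha1
      exact (le_iSup (fun a : Ioo (0 : ℝ) 1 => f a) ⟨a, ha, ha1⟩).trans hb.le
    refine hred _ hL ?_
    have hLeq : ∫⁻ r in Ioc (0 : ℝ) 1, ENNReal.ofReal (rd Γ' r) * V₀ r =
        ∫⁻ a in Ioo (0 : ℝ) 1, ENNReal.ofReal (rd Γ' (1 - a)) * V₀ (1 - a) := by
      have him : (fun a : ℝ => 1 - a) '' Ioo 0 1 = Ioo 0 1 := by
        ext t
        constructor
        · rintro ⟨b, ⟨hb1, hb2⟩, rfl⟩
          exact ⟨by simp only; linarith, by simp only; linarith⟩
        · rintro ⟨ht1, ht2⟩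
          exact ⟨1 - t, ⟨by linarith, by linarith⟩, by simp only; ring⟩
      have h := lintegral_image_eq_lintegral_abs_deriv_mul (s := Ioo (0 : ℝ) 1)
        (f := fun a : ℝ => 1 - a) (f' := fun _ => -1) measurableSet_Ioo
        (fun x _ => ((hasDerivAt_id x).const_sub 1).hasDerivWithinAt)
        (fun x _ y _ hxy => by simp only at hxy; linarith)
        (fun r => ENNReal.ofReal (rd Γ' r) * V₀ r)
      rw [him] at h
      rw [← setLIntegral_congr Ioo_ae_eq_Ioc, h]
      refine setLIntegral_congr_fun measurableSet_Ioo ?_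
      intro a _
      simp
    rw [hLeq]
    have hsub : ENNReal.ofReal (1 / c) * ∫⁻ a in Ioo (0 : ℝ) 1,
        ENNReal.ofReal (rd Γ' (1 - a)) * V₀ (1 - a) =
        ∫⁻ a in Ioo (0 : ℝ) 1, ENNReal.ofReal (1 / (c * a)) * f a := by
      rw [← lintegral_const_mul]
      · refine setLIntegral_congr_fun measurableSet_Ioo ?_
        intro a ha
        have ha0 : 0 < a := ha.1
        simp only [f]
        rw [← mul_assoc, ← mul_assoc, ← ENNReal.ofReal_mul (by positivity),
          ← ENNReal.ofReal_mul (by positivity)]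
        congr 2
        field_simp
      · have e1 : Continuous fun a : ℝ => rd Γ' (1 - a) := by
          have := rd_cont Γ'
          fun_prop
        exact e1.measurable.ennreal_ofReal.mul
          (hV₀.measurable.comp (measurable_const.sub measurable_id))
    rw [hsub]
    have himg := lintegral_image_eq_lintegral_abs_deriv_mul (s := Ioo (0 : ℝ) 1)
      (f := fun a : ℝ => a / b0) (f' := fun _ => 1 / b0) measurableSet_Ioo
      (fun x _ => ((hasDerivAt_id x).div_const b0).hasDerivWithinAt)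
      (fun x _ y _ hxy => by
        simp only at hxy
        field_simp at hxy
        exact hxy)
      (fun t => ENNReal.ofReal (mw t) * w t)
    calc ∫⁻ a in Ioo (0 : ℝ) 1, ENNReal.ofReal (1 / (c * a)) * f a
        ≤ ∫⁻ a in Ioo (0 : ℝ) 1, ENNReal.ofReal |1 / b0| *
            (ENNReal.ofReal (mw (a / b0)) * w (a / b0)) := by
          refine setLIntegral_mono' measurableSet_Ioo ?_
          intro a ha
          have h3 := hP a b0 a ha.1 ha.2 hb0' ha.1
          rw [min_eq_left (hfg a ha.1 ha.2)] at h3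
          refine h3.trans (le_of_eq ?_)
          have ha0 : 0 < a := ha.1
          rw [← mul_assoc, ← ENNReal.ofReal_mul (abs_nonneg _), abs_of_pos (by positivity),
            mw_eq]
          congr 2
          field_simp
      _ = ∫⁻ t in (fun a : ℝ => a / b0) '' Ioo 0 1, ENNReal.ofReal (mw t) * w t := himg.symm
      _ ≤ I := by
          rw [hI]
          refine lintegral_mono_set ?_
          rintro _ ⟨a, ha, rfl⟩
          exact div_pos ha.1 hb0'
  · -- case A
    refine hred _ hR ?_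
    have hReq : ∫⁻ r in Ioi (1 : ℝ), ENNReal.ofReal (rd Γ r) * V₁ r =
        ∫⁻ b in Ioi (0 : ℝ), ENNReal.ofReal (rd Γ (1 + b)) * V₁ (1 + b) := by
      have him : (fun b : ℝ => 1 + b) '' Ioi 0 = Ioi 1 := by
        ext t
        constructor
        · rintro ⟨b, hb, rfl⟩
          have : (0 : ℝ) < b := hb
          change (1 : ℝ) < 1 + b
          linarith
        · intro ht
          have : (1 : ℝ) < t := ht
          exact ⟨t - 1, by change (0 : ℝ) < t - 1; linarith, by simp only; ring⟩
      have h := lintegral_image_eq_lintegral_abs_deriv_mul (s := Ioi (0 : ℝ))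
        (f := fun b : ℝ => 1 + b) (f' := fun _ => 1) measurableSet_Ioi
        (fun x _ => ((hasDerivAt_id x).const_add 1).hasDerivWithinAt)
        (fun x _ y _ hxy => by simp only at hxy; linarith)
        (fun r => ENNReal.ofReal (rd Γ r) * V₁ r)
      rw [him] at h
      rw [h]
      refine setLIntegral_congr_fun measurableSet_Ioi ?_
      intro a _
      simp
    rw [hReq]
    have hsub : ENNReal.ofReal (1 / c) * ∫⁻ b in Ioi (0 : ℝ),
        ENNReal.ofReal (rd Γ (1 + b)) * V₁ (1 + b) =
        ∫⁻ b in Ioi (0 : ℝ), ENNReal.ofReal (1 / (c * b)) * g b := by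
      rw [← lintegral_const_mul]
      · refine setLIntegral_congr_fun measurableSet_Ioi ?_
        intro b hb
        have hb0 : 0 < b := hb
        simp only [g]
        rw [← mul_assoc, ← mul_assoc, ← ENNReal.ofReal_mul (by positivity),
          ← ENNReal.ofReal_mul (by positivity)]
        congr 2
        field_simp
      · have e1 : Continuous fun b : ℝ => rd Γ (1 + b) := by
          have := rd_cont Γ
          fun_prop
        exact e1.measurable.ennreal_ofReal.mul
          (hV₁.measurable.comp (measurable_const.add measurable_id))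
    rw [hsub]
    -- the bound for `N < sup g`
    have hN : ∀ N : ℝ≥0∞, N < ⨆ b : Ioi (0 : ℝ), g b →
        ∫⁻ b in Ioi (0 : ℝ), ENNReal.ofReal (1 / (c * b)) * min N (g b) ≤ I := by
      intro N hN
      obtain ⟨⟨a0, ha0, ha1⟩, ha⟩ := lt_iSup_iff.1 (hN.trans_le hge)
      have hIa : I = ∫⁻ b in Ioi (0 : ℝ), ENNReal.ofReal (a0 / b ^ 2) *
          (ENNReal.ofReal (mw (a0 / b)) * w (a0 / b)) := sub_inv ha0 _
      rw [hIa]
      refine setLIntegral_mono' measurableSet_Ioi ?_
      intro b hb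
      have hb0 : 0 < b := hb
      calc ENNReal.ofReal (1 / (c * b)) * min N (g b)
          ≤ ENNReal.ofReal (1 / (c * b)) * min (f a0) (g b) := by
            gcongr
        _ ≤ ENNReal.ofReal (mm a0 b / b) * w (a0 / b) := hP a0 b b ha0 ha1 hb0 hb0
        _ = ENNReal.ofReal (a0 / b ^ 2) * (ENNReal.ofReal (mw (a0 / b)) * w (a0 / b)) := by
            rw [← mul_assoc, ← ENNReal.ofReal_mul (by positivity), mw_eq]
            congr 2
            field_simp
    rcases eq_or_ne (⨆ b : Ioi (0 : ℝ), g b) 0 with h0 | h0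
    · have h3 : ∀ b ∈ Ioi (0 : ℝ), ENNReal.ofReal (1 / (c * b)) * g b = 0 := by
        intro b hb
        have h4 : g b ≤ 0 := by
          rw [← h0]
          exact le_iSup (fun b : Ioi (0 : ℝ) => g b) ⟨b, hb⟩
        rw [le_zero_iff.1 h4, mul_zero]
      rw [setLIntegral_congr_fun measurableSet_Ioi h3]
      simp
    · obtain ⟨u, hu1, hu2, hu3⟩ := exists_seq_strictMono_tendsto' (pos_iff_ne_zero.2 h0)
      have hsup : ⨆ n, u n = ⨆ b : Ioi (0 : ℝ), g b :=
        iSup_eq_of_tendsto hu1.monotone hu3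
      have hlim : ∫⁻ b in Ioi (0 : ℝ), ENNReal.ofReal (1 / (c * b)) * g b =
          ⨆ n, ∫⁻ b in Ioi (0 : ℝ), ENNReal.ofReal (1 / (c * b)) * min (u n) (g b) := by
        rw [← lintegral_iSup]
        · refine setLIntegral_congr_fun measurableSet_Ioi ?_
          intro b hb
          simp only
          rw [← ENNReal.mul_iSup]
          congr 1
          have h5 : ⨆ n, min (u n) (g b) = min (⨆ n, u n) (g b) := (iSup_inf_eq _ _).symm
          rw [h5, hsup, min_eq_right (le_iSup (fun b : Ioi (0 : ℝ) => g b) ⟨b, hb⟩)]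
        · intro n
          refine Measurable.mul ?_ (measurable_const.min hgm)
          exact (measurable_const.div (measurable_const.mul measurable_id)).ennreal_ofReal
        · intro n m hnm b
          change ENNReal.ofReal (1 / (c * b)) * min (u n) (g b) ≤
            ENNReal.ofReal (1 / (c * b)) * min (u m) (g b)
          gcongr
          exact hu1.monotone hnm
      rw [hlim]
      exact iSup_le fun n => hN (u n) (hu2 n).2

end Pool.Agent.H12.PK
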