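import Pool.Agent.H97.PK.Targets3

/-! # PK, module TRI: trichotomy for one index -/

open MeasureTheory Set Metric Real
open scoped ENNReal

namespace Pool.Agent.H12.PK

open Pool.Agent.H97.PK

private theorem tri_step (P : ℕ → Prop) (h0 : ¬ P 0) : ∀ n, P n → ∃ k, k < n ∧ ¬ P k ∧ P (k + 1) := by
  intro n
  induction n with
  | zero => intro h; exact absurd h h0
  | succ n ih =>
    intro h
    by_cases hn : P n
    · obtain ⟨k, hk, h1, h2⟩ := ih hn
      exact ⟨k, by omega, h1, h2⟩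
    · exact ⟨n, by omega, hn, h⟩

private theorem tri_rd_cont (Γ : ℝ) : Continuous (rd Γ) := by
  unfold rd
  fun_prop

private theorem tri_int (Γ : ℝ) (hΓ : 0 < Γ) :
    ∫⁻ r in Ioc (0 : ℝ) 1, ENNReal.ofReal (rd Γ r) = ENNReal.ofReal (exp Γ - 1) := by
  have hint : ∫ r in (0 : ℝ)..1, rd Γ r = exp Γ - 1 := by
    have hd : ∀ r ∈ uIcc (0 : ℝ) 1, HasDerivAt (fun r => -exp (Γ * (1 - r ^ 2))) (rd Γ r) r := by
      intro r _
      have h1 : HasDerivAt (fun r : ℝ => Γ * (1 - r ^ 2)) (Γ * (-(2 * r))) r := by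
        have h2 : HasDerivAt (fun r : ℝ => r ^ 2) (2 * r) r := by
          simpa using hasDerivAt_pow 2 r
        exact ((h2.const_sub 1).const_mul Γ)
      have h3 := (h1.exp).neg
      have e : -(exp (Γ * (1 - r ^ 2)) * (Γ * (-(2 * r)))) = rd Γ r := by
        unfold rd
        ring
      rw [e] at h3
      exact h3
    rw [intervalIntegral.integral_eq_sub_of_hasDerivAt hd
      ((tri_rd_cont Γ).intervalIntegrable 0 1)]
    norm_num
    ring
  rw [← hint, intervalIntegral.integral_of_le zero_le_one,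
    ofReal_integral_eq_lintegral_ofReal]
  · exact ((tri_rd_cont Γ).integrableOn_Ioc)
  · refine (ae_restrict_iff' measurableSet_Ioc).2 (Filter.Eventually.of_forall ?_)
    intro r hr
    have : 0 < r := hr.1
    change 0 ≤ rd Γ r
    unfold rd
    positivity

private theorem tri_exp4 : exp 4 ≤ 54.6 := by
  have h1 : exp 4 = exp 1 ^ 4 := by
    rw [← exp_nat_mul]
    norm_num
  rw [h1]
  calc exp 1 ^ 4 ≤ 2.7182818286 ^ 4 :=
        pow_le_pow_left₀ (exp_pos 1).le exp_one_lt_d9.le 4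
    _ ≤ 54.6 := by norm_num

theorem pf_tri : T_TRI := by
  intro D G K Γ V hD hG hpos h04 h0D hKD hstep hmono hsum
  have hsplit : ∀ k, k ≤ K →
      (ENNReal.ofReal G ≤ 2 * ∫⁻ r in Ioc (0 : ℝ) 1, ENNReal.ofReal (rd (Γ k) r) * V k r) ∨
      (ENNReal.ofReal G ≤ 2 * ∫⁻ r in Ioi (1 : ℝ), ENNReal.ofReal (rd (Γ k) r) * V k r) := by
    intro k hk
    by_contra hcon
    push Not at hcon
    obtain ⟨h1, h2⟩ := hcon
    have h3 := hsum k hk
    have h4 : ∫⁻ r in Ioi (0 : ℝ), ENNReal.ofReal (rd (Γ k) r) * V k r =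
        (∫⁻ r in Ioc (0 : ℝ) 1, ENNReal.ofReal (rd (Γ k) r) * V k r) +
        ∫⁻ r in Ioi (1 : ℝ), ENNReal.ofReal (rd (Γ k) r) * V k r := by
      rw [← Ioc_union_Ioi_eq_Ioi (zero_le_one : (0 : ℝ) ≤ 1)]
      refine lintegral_union measurableSet_Ioi ?_
      rw [Set.disjoint_left]
      intro x hx hx'
      exact absurd hx.2 (not_le.2 hx')
    rw [h4] at h3
    have h5 := ENNReal.add_lt_add h1 h2
    have h6 : 2 * ENNReal.ofReal G ≤ 2 * ((∫⁻ r in Ioc (0 : ℝ) 1,
        ENNReal.ofReal (rd (Γ k) r) * V k r) +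
        ∫⁻ r in Ioi (1 : ℝ), ENNReal.ofReal (rd (Γ k) r) * V k r) := by gcongr
    rw [mul_add, two_mul (ENNReal.ofReal G)] at h6
    exact absurd h5 (not_lt.2 h6)
  classical
  have hex : ∃ k, D ≤ Γ k := ⟨K, hKD⟩
  obtain ⟨k1, hk1⟩ : ∃ n, Nat.find hex = n := ⟨_, rfl⟩
  have hD1 : D ≤ Γ k1 := hk1 ▸ Nat.find_spec hex
  have hmin : ∀ k, k < k1 → Γ k < D := by
    intro k hk
    rw [← hk1] at hk
    exact not_le.1 (Nat.find_min hex hk)
  have hk1K : k1 ≤ K := by
    rw [← hk1]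
    exact Nat.find_min' hex hKD
  have hD2 : Γ k1 ≤ 2 * D := by
    rcases Nat.eq_zero_or_pos k1 with h | h
    · rw [h]
      exact h0D
    · obtain ⟨k0, rfl⟩ : ∃ k0, k1 = k0 + 1 := ⟨k1 - 1, by omega⟩
      have h1 := hmin k0 (by omega)
      have h2 := (hstep k0 (by omega) h1).2
      have h3 : √(Γ k0) ≤ √D := Real.sqrt_le_sqrt h1.le
      have h4 : √D ≤ D := by
        rw [Real.sqrt_le_left (by linarith)]
        nlinarith
      linarith
  by_cases hr1 : ENNReal.ofReal G ≤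
      2 * ∫⁻ r in Ioi (1 : ℝ), ENNReal.ofReal (rd (Γ k1) r) * V k1 r
  · exact Or.inr (Or.inl ⟨k1, hk1K, hD1, hD2, hr1⟩)
  · have hl1 := (hsplit k1 hk1K).resolve_right hr1
    by_cases hl0 : ENNReal.ofReal G ≤
        2 * ∫⁻ r in Ioc (0 : ℝ) 1, ENNReal.ofReal (rd (Γ 0) r) * V 0 r
    · left
      calc ENNReal.ofReal G ≤ 2 * ∫⁻ r in Ioc (0 : ℝ) 1, ENNReal.ofReal (rd (Γ 0) r) * V 0 r :=
            hl0
        _ ≤ 2 * ∫⁻ r in Ioc (0 : ℝ) 1, ENNReal.ofReal (rd (Γ 0) r) * V 0 1 := by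
            gcongr 2 * ?_
            refine setLIntegral_mono' measurableSet_Ioc ?_
            intro r hr
            gcongr
            exact hmono 0 hr.2
        _ = 2 * (ENNReal.ofReal (exp (Γ 0) - 1) * V 0 1) := by
            rw [lintegral_mul_const _ (by
              exact (tri_rd_cont (Γ 0)).measurable.ennreal_ofReal), tri_int _ (hpos 0)]
        _ = ENNReal.ofReal (2 * (exp (Γ 0) - 1)) * V 0 1 := by
            rw [← mul_assoc, ENNReal.ofReal_mul (by norm_num)]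
            norm_num
        _ ≤ 108 * V 0 1 := by
            gcongr
            have h1 : exp (Γ 0) ≤ 54.6 := (exp_le_exp.2 h04).trans tri_exp4
            calc ENNReal.ofReal (2 * (exp (Γ 0) - 1)) ≤ ENNReal.ofReal 108 :=
                  ENNReal.ofReal_le_ofReal (by linarith)
              _ = 108 := by norm_num
    · obtain ⟨k, hk, hnl, hl⟩ := tri_step (fun k => ENNReal.ofReal G ≤
        2 * ∫⁻ r in Ioc (0 : ℝ) 1, ENNReal.ofReal (rd (Γ k) r) * V k r) hl0 k1 hl1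
      exact Or.inr (Or.inr ⟨k, by omega, hmin k hk, hl,
        (hsplit k (by omega)).resolve_left hnl⟩)

end Pool.Agent.H12.PK
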